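import Pool.Agent.Run7.h757.MW.Stm6

/-!
# Project MW (helper757), piece SHORTIT (helper888)

The primes with index in a set which is regular in almost all short intervals.
-/

open Finset Filter

namespace Pool.Agent.Run7.h888.MW

open Pool.Agent.Run7.h757.MW

lemma lt_pn {m n : ℕ} (hm : 1 ≤ m) : n < pn m ↔ Nat.primeCounting n < m := by
  have h : m - 1 < Nat.primeCounting n ↔ pn m < n + 1 :=
    Nat.lt_nth_iff_count_lt Nat.infinite_setOf_prime (a := m - 1) (b := n + 1)
  constructor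
  · intro h1
    by_contra h2
    have h3 := h.1 (by omega)
    omega
  · intro h1
    by_contra h2
    have h3 := h.2 (by omega)
    omega

lemma pn_le {m n : ℕ} (hm : 1 ≤ m) : pn m ≤ n ↔ m ≤ Nat.primeCounting n := by
  have := lt_pn (n := n) hm
  constructor
  · intro h
    by_contra h2
    have := this.2 (by omega)
    omega
  · intro h
    by_contra h2
    have := this.1 (by omega)
    omega

lemma pn_inj {m m' : ℕ} (hm : 1 ≤ m) (hm' : 1 ≤ m') (h : pn m = pn m') : m = m' := by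
  have := Nat.nth_injective Nat.infinite_setOf_prime h
  omega

lemma pc (n x : ℕ) : Nat.primeCounting (n + x) = Nat.primeCounting n +
    ({p : ℕ | p.Prime} ∩ {m : ℕ | n < m ∧ m ≤ n + x}).ncard := by
  classical
  have e1 : ({p : ℕ | p.Prime} ∩ {m : ℕ | n < m ∧ m ≤ n + x}) =
      (((Finset.Ioc n (n + x)).filter Nat.Prime : Finset ℕ) : Set ℕ) := by
    ext m
    simp only [Set.mem_inter_iff, Set.mem_setOf_eq, Finset.coe_filter, Finset.mem_Ioc]
    tauto
  rw [e1, Set.ncard_coe_finset]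
  unfold Nat.primeCounting Nat.primeCounting'
  rw [Nat.count_eq_card_filter_range, Nat.count_eq_card_filter_range,
    ← Finset.card_union_of_disjoint]
  · congr 1
    ext m
    simp only [Finset.mem_filter, Finset.mem_range, Finset.mem_union, Finset.mem_Ioc]
    constructor
    · rintro ⟨h1, h2⟩
      by_cases h : m < n + 1
      · exact Or.inl ⟨h, h2⟩
      · exact Or.inr ⟨⟨by omega, by omega⟩, h2⟩
    · rintro (⟨h1, h2⟩ | ⟨⟨h1, h3⟩, h2⟩)
      · exact ⟨by omega, h2⟩
      · exact ⟨by omega, h2⟩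
  · rw [Finset.disjoint_left]
    intro m h1 h2
    simp only [Finset.mem_filter, Finset.mem_range, Finset.mem_Ioc] at h1 h2
    omega

lemma pc_half (n : ℕ) (hn : 10 ≤ n) : 2 * Nat.primeCounting n ≤ n + 4 := by
  have h := Nat.primeCounting'_add_le (a := 2) (k := 3) (by norm_num) (by norm_num) (n + 1 - 3)
  have h1 : 3 + (n + 1 - 3) = n + 1 := by omega
  rw [h1] at h
  have h2 : Nat.primeCounting' 3 ≤ 1 := by decide
  have h3 : Nat.totient 2 = 1 := by decide
  rw [h3] at h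
  have h4 : Nat.primeCounting n = Nat.primeCounting' (n + 1) := rfl
  rw [h4]
  omega

theorem t_SHORTIT : S_SHORTIT := by
  classical
  intro V c t γ hc ht hγ0 hγ1 hV hP U
  obtain ⟨T₁, h1⟩ := hV (U + 2)
  obtain ⟨T₂, h2⟩ := hP (U + 2)
  refine ⟨T₁ + T₂ + 10, ?_⟩
  -- large N
  have hlog : ∀ᶠ N : ℕ in atTop, (5 : ℝ) ≤ Real.log N :=
    (Real.tendsto_log_atTop.comp tendsto_natCast_atTop_atTop).eventually_ge_atTop 5
  have hbig : ∀ᶠ N : ℕ in atTop,
      9 * ((N : ℝ) ^ γ * Real.log N ^ (T₁ + 2 * T₂ + 3)) ≤ N := by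
    have h := (isLittleO_log_rpow_rpow_atTop ((T₁ + 2 * T₂ + 3 : ℕ) : ℝ)
      (show 0 < 1 - γ by linarith)).bound (show (0 : ℝ) < 1 / 9 by norm_num)
    have h' := tendsto_natCast_atTop_atTop (R := ℝ) |>.eventually h
    filter_upwards [h', hlog, eventually_ge_atTop 1] with N hN hL hN1
    have hN0 : (0 : ℝ) < N := by exact_mod_cast hN1
    have hL0 : 0 ≤ Real.log N := by linarith
    rw [Real.rpow_natCast, Real.norm_of_nonneg (by positivity),
      Real.norm_of_nonneg (by positivity)] at hN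
    have e : (N : ℝ) ^ γ * (N : ℝ) ^ (1 - γ) = N := by
      rw [← Real.rpow_add hN0]; simp
    calc 9 * ((N : ℝ) ^ γ * Real.log N ^ (T₁ + 2 * T₂ + 3))
        ≤ 9 * ((N : ℝ) ^ γ * (1 / 9 * (N : ℝ) ^ (1 - γ))) := by gcongr
      _ = (N : ℝ) ^ γ * (N : ℝ) ^ (1 - γ) := by ring
      _ = N := e
  filter_upwards [h1, h2, hlog, hbig, eventually_ge_atTop 100] with N hN1 hN2 hL hB hN100
  obtain ⟨Ex₁, hE1, hE1'⟩ := hN1
  obtain ⟨Ex₂, hE2, hE2'⟩ := hN2
  set L := Real.log N with hLd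
  set A : ℝ := (N : ℝ) ^ γ with hAd
  have hNr : (100 : ℝ) ≤ N := by exact_mod_cast hN100
  have hN0 : (0 : ℝ) < N := by linarith
  have hA1 : 1 ≤ A := Real.one_le_rpow (by linarith) hγ0.le
  have hL1 : 1 ≤ L := by linarith
  have hL0 : 0 < L := by linarith
  have hLp : ∀ k : ℕ, 1 ≤ L ^ k := fun k => one_le_pow₀ hL1
  have hLm : ∀ {j k : ℕ}, j ≤ k → L ^ j ≤ L ^ k := fun h => pow_le_pow_right₀ hL1 h
  set Q : ℝ := A * L ^ (T₁ + T₂ + 2) with hQ
  have hQ1 : 1 ≤ Q := one_le_mul_of_one_le_of_one_le hA1 (hLp _)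
  set h₀ : ℕ := ⌈Q⌉₊ with hh₀
  have hh1 : Q ≤ h₀ := Nat.le_ceil _
  have hh2 : (h₀ : ℝ) ≤ Q + 1 := (Nat.ceil_lt_add_one (by linarith)).le
  have hh0 : (1 : ℝ) ≤ h₀ := hQ1.trans hh1
  have hh0' : 1 ≤ h₀ := by exact_mod_cast hh0
  set G : ℕ := ⌈4 * (h₀ : ℝ) * L⌉₊ with hG
  have hG1 : 4 * (h₀ : ℝ) * L ≤ G := Nat.le_ceil _
  have hG2 : (G : ℝ) ≤ 4 * h₀ * L + 1 := (Nat.ceil_lt_add_one (by positivity)).le
  -- sizes
  have hQL : 9 * (Q * L ^ (T₂ + 1)) ≤ N := by
    refine le_trans (le_of_eq ?_) hB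
    rw [hQ, mul_assoc, ← pow_add]
    congr 3
    ring
  have hQN : 9 * Q ≤ N := by
    refine le_trans ?_ hQL
    have : Q * 1 ≤ Q * L ^ (T₂ + 1) := mul_le_mul_of_nonneg_left (hLp _) (by linarith)
    linarith
  have hGN : (G : ℝ) * L ^ T₂ ≤ N := by
    refine le_trans ?_ hQL
    have e1 : (G : ℝ) ≤ 9 * (Q * L) := by
      have : 4 * (h₀ : ℝ) * L ≤ 4 * (2 * Q) * L := by
        apply mul_le_mul_of_nonneg_right _ hL0.le
        linarith
      have h3 : 1 ≤ Q * L := one_le_mul_of_one_le_of_one_le hQ1 hL1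
      linarith
    calc (G : ℝ) * L ^ T₂ ≤ 9 * (Q * L) * L ^ T₂ := by gcongr
      _ = 9 * (Q * L ^ (T₂ + 1)) := by rw [pow_succ]; ring
  have hAG : A * L ^ T₂ ≤ G := by
    have e1 : A * L ^ T₂ ≤ Q := by
      rw [hQ]
      exact mul_le_mul_of_nonneg_left (hLm (by omega)) (by linarith)
    have e2 : (h₀ : ℝ) ≤ 4 * h₀ * L := by nlinarith
    linarith
  have hpiN : ∀ n : ℕ, n ≤ N → Nat.primeCounting n + h₀ ≤ N := by
    intro n hn
    have k1 : Nat.primeCounting n ≤ Nat.primeCounting N := Nat.monotone_primeCounting hn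
    have k2 := pc_half N (by omega)
    have k3 : 2 * h₀ + 4 ≤ N := by
      have : 2 * (h₀ : ℝ) + 4 ≤ N := by linarith
      exact_mod_cast this
    omega
  -- primes in intervals of length G
  have hKG : ∀ n ∈ Icc 1 N, n ∉ Ex₂ →
      Nat.primeCounting n + h₀ ≤ Nat.primeCounting (n + G) := by
    intro n hn hnE
    have k := hE2' n hn hnE G hAG hGN
    rw [pc n G]
    have k2 : (h₀ : ℝ) ≤ (({p : ℕ | p.Prime} ∩ {m : ℕ | n < m ∧ m ≤ n + G}).ncard : ℝ) := by
      refine le_trans ?_ k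
      rw [Real.rpow_one, le_div_iff₀ hL0]
      linarith
    have k3 : h₀ ≤ ({p : ℕ | p.Prime} ∩ {m : ℕ | n < m ∧ m ≤ n + G}).ncard := by
      exact_mod_cast k2
    omega
  set Bad : Finset ℕ := (Icc 1 N).filter (fun n => n ∉ Ex₂ ∧
    ∀ e, Nat.primeCounting n < e → e ≤ Nat.primeCounting n + h₀ → e ∈ Ex₁) with hBad
  have hcount : Bad.card * h₀ ≤ Ex₁.card * G := by
    apply Finset.card_mul_le_card_mul (fun n e => Nat.primeCounting n < e ∧
      e ≤ Nat.primeCounting n + h₀)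
    · intro n hn
      rw [hBad, Finset.mem_filter] at hn
      have hsub : Finset.Ioc (Nat.primeCounting n) (Nat.primeCounting n + h₀) ⊆
          Finset.bipartiteAbove (fun n e => Nat.primeCounting n < e ∧
            e ≤ Nat.primeCounting n + h₀) Ex₁ n := by
        intro e he
        rw [Finset.mem_Ioc] at he
        rw [Finset.mem_bipartiteAbove]
        exact ⟨hn.2.2 e he.1 he.2, he⟩
      have := Finset.card_le_card hsub
      rwa [Nat.card_Ioc, Nat.add_sub_cancel_left] at this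
    · intro e _
      have hsub : Finset.bipartiteBelow (fun n e => Nat.primeCounting n < e ∧
            e ≤ Nat.primeCounting n + h₀) Bad e ⊆ Finset.Ico (pn e - G) (pn e) := by
        intro n hn
        rw [Finset.mem_bipartiteBelow] at hn
        obtain ⟨hn1, hn2, hn3⟩ := hn
        rw [hBad, Finset.mem_filter] at hn1
        have he1 : 1 ≤ e := by omega
        have k1 : n < pn e := (lt_pn he1).2 hn2
        have k2 : pn e ≤ n + G := (pn_le he1).2 (hn3.trans (hKG n hn1.1 hn1.2.1))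
        rw [Finset.mem_Ico]
        omega
      have := Finset.card_le_card hsub
      rw [Nat.card_Ico] at this
      omega
  have hBadc : (Bad.card : ℝ) ≤ Ex₁.card * (4 * L + 1) := by
    have k1 : (Bad.card : ℝ) * h₀ ≤ Ex₁.card * G := by exact_mod_cast hcount
    have k2 : (Ex₁.card : ℝ) * G ≤ Ex₁.card * ((4 * L + 1) * h₀) := by
      apply mul_le_mul_of_nonneg_left _ (Nat.cast_nonneg _)
      linarith
    have k3 : (Bad.card : ℝ) * h₀ ≤ (Ex₁.card * (4 * L + 1)) * h₀ := by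
      calc (Bad.card : ℝ) * h₀ ≤ Ex₁.card * ((4 * L + 1) * h₀) := k1.trans k2
        _ = _ := by ring
    exact le_of_mul_le_mul_right k3 (by linarith)
  refine ⟨Ex₂ ∪ Bad, ?_, ?_⟩
  · have k1 : ((Ex₂ ∪ Bad).card : ℝ) ≤ Ex₂.card + Bad.card := by
      exact_mod_cast Finset.card_union_le _ _
    have hLU : (0 : ℝ) < L ^ U := by positivity
    have e1 : (N : ℝ) / L ^ (U + 2) = (N / L ^ U) / L ^ 2 := by
      rw [pow_add]; field_simp
    rw [e1] at hE1 hE2
    set R := (N : ℝ) / L ^ U with hR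
    have hR0 : 0 ≤ R := by positivity
    have k2 : (Bad.card : ℝ) ≤ R / L ^ 2 * (4 * L + 1) :=
      hBadc.trans (mul_le_mul_of_nonneg_right hE1 (by linarith))
    have k3 : R / L ^ 2 * (4 * L + 2) ≤ R := by
      rw [div_mul_eq_mul_div, div_le_iff₀ (by positivity)]
      apply mul_le_mul_of_nonneg_left _ hR0
      nlinarith
    linarith
  · intro n hn hnE x hx1 hx2
    rw [Finset.mem_union, not_or] at hnE
    obtain ⟨hn2, hnB⟩ := hnE
    have hnB' : ∃ e, Nat.primeCounting n < e ∧ e ≤ Nat.primeCounting n + h₀ ∧ e ∉ Ex₁ := by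
      by_contra hcon
      push Not at hcon
      apply hnB
      rw [hBad, Finset.mem_filter]
      exact ⟨hn, hn2, hcon⟩
    obtain ⟨e, he1, he2, he3⟩ := hnB'
    have hnN := (Finset.mem_Icc.1 hn).2
    have heI : e ∈ Icc 1 N := by
      rw [Finset.mem_Icc]
      exact ⟨by omega, he2.trans (hpiN n hnN)⟩
    have hx0 : (0 : ℝ) ≤ x := Nat.cast_nonneg x
    -- the size of x
    have hxQ : Q * L ^ 8 ≤ x := by
      refine le_trans (le_of_eq ?_) hx1
      rw [hQ, mul_assoc, ← pow_add]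
    have hL7 : (64 : ℝ) ≤ L ^ 7 := by
      calc (64 : ℝ) ≤ 5 ^ 7 := by norm_num
        _ ≤ L ^ 7 := pow_le_pow_left₀ (by norm_num) hL 7
    have hxq : 64 * Q ≤ x / L := by
      rw [le_div_iff₀ hL0]
      refine le_trans ?_ hxQ
      have : Q * L ^ 8 = (L ^ 7 * Q) * L := by ring
      rw [this]
      apply mul_le_mul_of_nonneg_right _ hL0.le
      exact mul_le_mul_of_nonneg_right hL7 (by linarith)
    -- primes in (n, n + x]
    have kp := hE2' n hn hn2 x (by
      refine le_trans ?_ hx1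
      exact mul_le_mul_of_nonneg_left (hLm (by omega)) (by linarith)) (by
      refine le_trans ?_ hx2
      exact mul_le_mul_of_nonneg_left (hLm (by omega)) hx0)
    rw [Real.rpow_one] at kp
    set y : ℕ := ⌊(x : ℝ) / (4 * L)⌋₊ with hy
    have hy1 : (y : ℝ) ≤ x / (4 * L) := Nat.floor_le (by positivity)
    have hy2 : (x : ℝ) / (4 * L) ≤ y + 1 := (Nat.lt_floor_add_one _).le
    have hxL : (x : ℝ) / (4 * L) = (x / L) / 4 := by field_simp
    have hpy : Nat.primeCounting n + y ≤ Nat.primeCounting (n + x) := by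
      rw [pc n x]
      have : (y : ℝ) ≤ (({p : ℕ | p.Prime} ∩ {m : ℕ | n < m ∧ m ≤ n + x}).ncard : ℝ) := by
        refine hy1.trans (le_trans (le_of_eq ?_) kp)
        field_simp
      have : y ≤ ({p : ℕ | p.Prime} ∩ {m : ℕ | n < m ∧ m ≤ n + x}).ncard := by
        exact_mod_cast this
      omega
    have hyh : (h₀ : ℝ) + 1 + (x / L) / 8 ≤ y + 0 := by
      rw [hxL] at hy2
      linarith
    have hyh' : h₀ ≤ y := by
      have : (h₀ : ℝ) ≤ y := by
        have : 0 ≤ x / L := by positivity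
        linarith
      exact_mod_cast this
    have hx' : ((y - h₀ : ℕ) : ℝ) = y - h₀ := by
      rw [Nat.cast_sub hyh']
    have hx'1 : (x / L) / 8 ≤ ((y - h₀ : ℕ) : ℝ) := by
      rw [hx']; linarith
    have hx'2 : ((y - h₀ : ℕ) : ℝ) ≤ x := by
      rw [hx']
      have : (x : ℝ) / (4 * L) ≤ x := div_le_self hx0 (by linarith)
      linarith
    have kv := hE1' e heI he3 (y - h₀) (by
      refine le_trans ?_ hx'1
      have e1 : A * L ^ T₁ ≤ Q := by
        rw [hQ]
        exact mul_le_mul_of_nonneg_left (hLm (by omega)) (by linarith)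
      linarith) (by
      refine le_trans ?_ hx2
      exact mul_le_mul hx'2 (hLm (by omega)) (by positivity) hx0)
    -- the image
    have hsub : pn '' (V ∩ {m : ℕ | e < m ∧ m ≤ e + (y - h₀)}) ⊆
        (pn '' V) ∩ {m : ℕ | n < m ∧ m ≤ n + x} := by
      rintro _ ⟨m, ⟨hmV, hm1, hm2⟩, rfl⟩
      refine ⟨⟨m, hmV, rfl⟩, ?_, ?_⟩
      · exact (lt_pn (by omega)).2 (by omega)
      · exact (pn_le (by omega)).2 (by omega)
    have hfin : ((pn '' V) ∩ {m : ℕ | n < m ∧ m ≤ n + x}).Finite :=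
      (Set.finite_Iic (n + x)).subset (fun m hm => hm.2.2)
    have hle := Set.ncard_le_ncard hsub hfin
    rw [Set.ncard_image_of_injOn (by
      rintro m ⟨_, hm1, _⟩ m' ⟨_, hm1', _⟩ h
      exact pn_inj (by omega) (by omega) h)] at hle
    have hle' : ((V ∩ {m : ℕ | e < m ∧ m ≤ e + (y - h₀)}).ncard : ℝ) ≤
        (((pn '' V) ∩ {m : ℕ | n < m ∧ m ≤ n + x}).ncard : ℝ) := by exact_mod_cast hle
    refine le_trans ?_ (kv.trans hle')
    have hLt : 0 < L ^ t := Real.rpow_pos_of_pos hL0 t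
    rw [Real.rpow_add hL0, Real.rpow_one]
    rw [div_le_div_iff₀ (by positivity) hLt]
    have k5 : c * ((x / L) / 8) ≤ c * ((y - h₀ : ℕ) : ℝ) := mul_le_mul_of_nonneg_left hx'1 hc.le
    calc c / 16 * x * L ^ t ≤ c / 8 * x * L ^ t := by
          apply mul_le_mul_of_nonneg_right _ hLt.le
          apply mul_le_mul_of_nonneg_right _ hx0
          linarith
      _ = (c * ((x / L) / 8)) * (L ^ t * L) := by field_simp
      _ ≤ (c * ((y - h₀ : ℕ) : ℝ)) * (L ^ t * L) :=
          mul_le_mul_of_nonneg_right k5 (by positivity)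

end Pool.Agent.Run7.h888.MW
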